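import Pool.Agent.Lib.MP_258d0c_pr.Main

open MeasureTheory ProbabilityTheory Pool.Agent.Lib.MP_258d0c_pr

namespace Pool.Agent.Results.MP_258d0c_pr.BerryEsseen

/-- Central limit theorem with rate for the facet number of block-beta random polytopes. -/
theorem result (m : ℕ) (hm : 1 ≤ m) (d : Fin m → ℕ) (hd : ∀ i, 1 ≤ d i) (β : Fin m → ℝ)
    (hβ : ∀ i, 0 ≤ β i) (h2 : 2 ≤ ∑ i, d i) :
    IsProbabilityMeasure (blockBeta d β) ∧
    (∀ n : ℕ, ∑ i, d i + 1 ≤ n →
      MemLp (fun X : Fin n → Amb d => facets X) 2 (sample d β n)) ∧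
    Filter.Tendsto (order d β) Filter.atTop Filter.atTop ∧
    ∃ C : ℝ, ∃ n0 : ℕ, ∀ n : ℕ, n0 ≤ n →
      0 < variance (fun X : Fin n → Amb d => facets X) (sample d β n) ∧ ∀ t : ℝ,
      |(sample d β n).real {X | (facets X - ∫ Y, facets Y ∂(sample d β n)) /
          √(variance (fun Y : Fin n → Amb d => facets Y) (sample d β n)) ≤ t} -
        (gaussianReal 0 1).real (Set.Iic t)| ≤ C / √(order d β n) :=
  ⟨blockBeta_prob d hβ, fun _ hn => memLp_facets hm hd hβ hn, order_tendsto hm hd hβ h2,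
    berry_esseen hm hd hβ h2⟩

end Pool.Agent.Results.MP_258d0c_pr.BerryEsseen
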