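import Pool.Agent.Lib.MP_258d0c_pr.Lim.Main

open MeasureTheory ProbabilityTheory Pool.Agent.Lib.MP_258d0c_pr

namespace Pool.Agent.Results.MP_258d0c_pr.VarianceLimit

/-- Variance asymptotics for the facet number of block-beta random polytopes. -/
theorem result (m : ℕ) (hm : 1 ≤ m) (d : Fin m → ℕ) (hd : ∀ i, 1 ≤ d i) (β : Fin m → ℝ)
    (hβ : ∀ i, 0 ≤ β i) :
    IsProbabilityMeasure (blockBeta d β) ∧
    (∀ n : ℕ, ∑ i, d i + 1 ≤ n →
      MemLp (fun X : Fin n → Amb d => facets X) 2 (sample d β n)) ∧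
    (∑ i, d i = 1 → ∀ n : ℕ, 2 ≤ n →
      variance (fun X : Fin n → Amb d => facets X) (sample d β n) = 0) ∧
    (2 ≤ ∑ i, d i → ∃ v : ℝ, 0 < v ∧ Filter.Tendsto (fun n : ℕ =>
      variance (fun X : Fin n → Amb d => facets X) (sample d β n) / order d β n)
        Filter.atTop (nhds v)) :=
  ⟨blockBeta_prob d hβ, fun _ hn => memLp_facets hm hd hβ hn,
    fun h1 _ hn => var_one hm hd hβ h1 hn, Lim.var_limit hm hd hβ⟩

end Pool.Agent.Results.MP_258d0c_pr.VarianceLimit
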